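import Pool.Agent.Helper16.SD.GoalsX
import Pool.Agent.Helper18.TH.SPN

/-!
# Project SD (MP_fc6b1e_nt), packet X_INS: the polynomial at one level, abstract form
-/

set_option autoImplicit false

namespace Pool.Agent.Helper63.SD.X_INS

open Module TensorProduct Polynomial
open Pool.Agent.Helper51.SigLeo Pool.Agent.Helper16.SD
open Pool.Agent.Helper17.TH (exO tm Wsub Acts ins_span tm_exO tm_smul)

theorem t : X_ABS → X_PRE → X_B → X_A → X_INS := by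
  intro hABS hPRE hB hA p _ A _ _ G _ act χ η gt ℓs O _ _ _ _ j c u m H B C CG ι _ hb hcyc g₀ hg₀
    hgen htor hexp hrat
  classical
  letI mV : Module ℤ_[p] (ℂ_[p] ⊗[ℤ] A) := Module.compHom _ (zp p)
  have hcompat : ∀ (r : ℤ_[p]) (v : ℂ_[p] ⊗[ℤ] A), r • v = zp p r • v := fun r v ↦ rfl
  have hjp' : ∀ x : ℤ_[p], j (algebraMap ℤ_[p] O x) = zp p x := H.alg
  let L : (O ⊗[ℤ] A) →ₗ[ℤ_[p]] (ℂ_[p] ⊗[ℤ] A) :=
    { toFun := tm j A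
      map_add' := map_add _
      map_smul' := fun r z ↦ by
        rw [RingHom.id_apply, hcompat, ← hjp', ← tm_smul, algebraMap_smul] }
  have hfin : Module.Finite ℤ_[p] (O ⊗[ℤ] A) := by
    have : Module.Finite O (O ⊗[ℤ] A) := inferInstance
    exact Module.Finite.trans O _
  have hfin' : Module.Finite ℤ_[p] (LinearMap.range L) := inferInstance
  have hΛ : ∀ v, v ∈ LinearMap.range L ↔ ∃ z, v = tm j A z := by
    intro v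
    rw [LinearMap.mem_range]
    exact ⟨fun ⟨z, hz⟩ ↦ ⟨z, hz.symm⟩, fun ⟨z, hz⟩ ↦ ⟨z, hz.symm⟩⟩
  let T : (ℂ_[p] ⊗[ℤ] A) →ₗ[ℂ_[p]] (ℂ_[p] ⊗[ℤ] A) :=
    extEnd (act gt) - (((χ gt : ℂ_[p]ˣ) : ℂ_[p]) * zp p (u gt : ℤ_[p]ˣ)) • LinearMap.id
  have hT : ∀ v, T v = extEnd (act gt) v -
      (((χ gt : ℂ_[p]ˣ) : ℂ_[p]) * zp p (u gt : ℤ_[p]ˣ)) • v := fun v ↦ rfl
  refine hABS p (ℂ_[p] ⊗[ℤ] A) hcompat (LinearMap.range L) T (Wsub act χ η ℓs) ?_ ?_ ?_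
    (m + 1) (B + C) ((p * CG) ^ Fintype.card ι) ?_ ?_ ?_
  · intro v hv
    rw [hT]
    exact sub_mem (H.acts.W_ext H.stab gt hv) (Submodule.smul_mem _ _ hv)
  · intro v hv
    obtain ⟨z, rfl⟩ := (hΛ v).1 hv
    refine (hΛ _).2
      ⟨exO O (act gt) z - (c gt * algebraMap ℤ_[p] O (u gt : ℤ_[p]ˣ)) • z, ?_⟩
    rw [hT, map_sub, tm_exO, tm_smul, map_mul, H.hc, hjp']
  · intro v hv
    have := ins_span (O := O) j c Pool.Agent.Helper18.TH.s_spn H.inj H.alg H.hc hrat v hv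
    refine Submodule.span_mono ?_ this
    rintro w ⟨hw1, hw2⟩
    exact ⟨(hΛ w).2 hw1, hw2⟩
  · intro v hv hvW
    obtain ⟨z, rfl⟩ := (hΛ v).1 hv
    obtain ⟨z', hz', hz⟩ := hPRE p A G act χ η gt ℓs O j c u m H z hvW
    exact ⟨tm j A z', (hΛ _).2 ⟨z', rfl⟩, hz', hz⟩
  · intro y v hy hyW hv hvW hTy
    obtain ⟨yh, rfl⟩ := (hΛ y).1 hy
    obtain ⟨vh, rfl⟩ := (hΛ v).1 hv
    obtain ⟨y3, hy3⟩ := hB p A G act χ η gt ℓs O j c u m H B C htor hexp yh vh hyW hTy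
    exact ⟨_, (hΛ _).2 ⟨y3, rfl⟩, hy3⟩
  · intro s hs1 hs2
    refine hA p A G act χ η gt ℓs O j c u m H CG ι hb hcyc g₀ hg₀ hgen s (fun x hx ↦ ?_)
      (fun x hx y hy ↦ ?_)
    · obtain ⟨h5, h6, w, h7, h8, h9⟩ := hs1 x hx
      exact ⟨(hΛ x).1 h5, h6, w, (hΛ w).1 h7, h8, h9⟩
    · rintro ⟨w, h7, h8, h9⟩
      exact hs2 x hx y hy ⟨w, (hΛ w).2 h7, h8, h9⟩

end Pool.Agent.Helper63.SD.X_INS
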